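import Pool.Agent.H951R3.PH.Main

/-!
# Periodic points of generalized Hénon maps and places of bad reduction
-/

set_option autoImplicit false

namespace Pool.Agent.Results.MP_0e6b5f_nt.BadPlacesBound

open Real NumberField Polynomial Pool.Agent.H951R3.PH

universe u

/-- For all `d ≥ 2`, `D`, `H` there is `C` such that for every number field `K` of degree at most
`D` and every generalized Hénon map `f(x, y) = (y, F(y) - δ x)` of degree `d` over `K`: let `T` be
a finite set of finite places containing all those at which `f` does not have potentially good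
reduction, let `s_v` be the size of `f` at `v` (with multiplicities at the infinite places), and
let `w` be an infinite place or an element of `T` such that the height of `δ` (times `[K : ℚ]`) is
at most `H + s_w / 8`. If `R ≥ 1` is at least the number of elements of `T`, or if the sum of `s_v`
over the infinite places and `T` is at most `R (1 + s_w)`, then `f` has at most
`C (R log (1 + R))²` periodic points in `K²`. -/
theorem result (d : ℕ) (hd : 2 ≤ d) (D : ℕ) (H : ℝ) : ∃ C : ℝ, 0 < C ∧
    ∀ (K : Type u) [Field K] [NumberField K], Module.finrank ℚ K ≤ D →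
    ∀ (F : K[X]) (δ : K), F.natDegree = d → δ ≠ 0 →
    ∀ T : Finset (FinitePlace K), (∀ v, v ∉ T → PotGood v.val d F δ) →
    ∀ R : ℝ, 1 ≤ R → ∀ w : InfinitePlace K ⊕ T,
      Height.logHeight₁ δ ≤ H + Sum.elim (fun v : InfinitePlace K => v.mult * siz v.val d F δ)
        (fun v : T => siz v.1.val d F δ) w / 8 →
      ((T.card : ℝ) ≤ R ∨
        ∑ v : InfinitePlace K, v.mult * siz v.val d F δ + ∑ v ∈ T, siz v.val d F δ ≤
          R * (1 + Sum.elim (fun v : InfinitePlace K => v.mult * siz v.val d F δ)
            (fun v : T => siz v.1.val d F δ) w)) →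
    ∀ Y : Finset (K × K),
      (∀ P ∈ Y, ∃ m : ℕ, 0 < m ∧ (fun P : K × K => (P.2, F.eval P.2 - δ * P.1))^[m] P = P) →
      (Y.card : ℝ) ≤ C * (R * log (1 + R)) ^ 2 :=
  main_bound d hd D H

end Pool.Agent.Results.MP_0e6b5f_nt.BadPlacesBound
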