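import Pool.Agent.H420R5.HE.Assembly2

/-!
# Hénon maps: uniform boundedness of K-rational periodic points when few places dominate (MP_0e6b5f_nt)
-/

namespace Pool.Agent.Results.MP_0e6b5f_nt.DominatingPlaces

open Polynomial NumberField H420R5

universe u

/-- For all `d ≥ 2`, `D` there is `C` such that for every number field `K` of degree `D`, every
generalized Hénon map `f(x, y) = (y, F(y) - δ x)` of degree `d` over `K`, every set `T₁ ∪ T₂` of
`t ≥ 1` infinite and finite places at which the Jacobian is moderate and every `ρ ≥ 1` such that the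
places of the set carry at least a `1/ρ` part of the height of `f`: the map `f` has at most
`C (ρ t log (1 + ρ t))²` periodic points in `K²`. -/
theorem result (d : ℕ) (hd : 2 ≤ d) (D : ℕ) : ∃ C : ℝ, 0 < C ∧
    ∀ (K : Type u) [Field K] [NumberField K] (F : K[X]) (δ : K), Module.finrank ℚ K = D →
      F.natDegree = d → δ ≠ 0 →
      ∀ (T₁ : Finset (InfinitePlace K)) (T₂ : Finset (FinitePlace K)) (t : ℕ) (ρ : ℝ),
      T₁.card + T₂.card = t → 1 ≤ t → 1 ≤ ρ →
      (∀ w ∈ T₁, |Real.log (w.val δ)| ≤ 1 / 4 * Real.log (locRad F δ w.val)) →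
      (∀ v ∈ T₂, |Real.log (v.val δ)| ≤ 1 / 4 * Real.log (locRad F δ v.val)) →
      height F δ ≤ ρ * (∑ w ∈ T₁, (w.mult : ℝ) * Real.log (locRad F δ w.val)
        + ∑ v ∈ T₂, Real.log (locRad F δ v.val)) →
      ∀ S : Finset (K × K), (∀ P ∈ S, Per F δ P) →
        (S.card : ℝ) ≤ C * ((ρ * t) * Real.log (1 + ρ * t)) ^ 2 :=
  uniform_bound.{u} d hd D

end Pool.Agent.Results.MP_0e6b5f_nt.DominatingPlaces
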