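import Pool.Agent.H504D.HenonGlobal

set_option autoImplicit false

open Finset Pool.Agent.H504D

namespace Pool.Agent.Results.MP_0e6b5f_nt.HenonExceptional

/-- `Exceptional N d F`: the polynomial `F` of degree `d` is a composition of affine polynomials
`a X + b`, of powers `X ^ m` such that all prime factors of `m` exceed `N + 1`, and of Dickson
polynomials of the first kind `D_m(X, a)` such that all prime factors of `m` exceed `2 N + 1`. The
number of factors and all coefficients are arbitrary. -/
inductive Exceptional {K : Type} [Field K] (N : ℕ) : ℕ → Polynomial K → Prop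
  | affine (a b : K) (ha : a ≠ 0) : Exceptional N 1 (Polynomial.C a * Polynomial.X + Polynomial.C b)
  | power (m : ℕ) (hm : 1 ≤ m) (h : ∀ r : ℕ, r.Prime → r ∣ m → N + 1 < r) :
      Exceptional N m (Polynomial.X ^ m)
  | dickson (m : ℕ) (a : K) (hm : 1 ≤ m) (h : ∀ r : ℕ, r.Prime → r ∣ m → 2 * N + 1 < r) :
      Exceptional N m (Polynomial.dickson 1 a m)
  | comp (d e : ℕ) (F G : Polynomial K) (hF : Exceptional N d F) (hG : Exceptional N e G) :
      Exceptional N (d * e) (F.comp G)

/-- The generalized Hénon map `f(x, y) = (y, F(y) - δ x)` on the plane over the algebraic closure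
of `K`. -/
noncomputable def henon {K : Type} [Field K] (F : Polynomial K) (δ : K)
    (P : AlgebraicClosure K × AlgebraicClosure K) : AlgebraicClosure K × AlgebraicClosure K :=
  (P.2, Polynomial.aeval P.2 F - algebraMap K (AlgebraicClosure K) δ * P.1)

lemma Exceptional.exc {K : Type} [Field K] {N d : ℕ} {F : Polynomial K} (h : Exceptional N d F) :
    Exc N d F := by
  induction h with
  | affine a b ha => exact Exc.affine a b ha
  | power m hm h => exact Exc.power m hm h
  | dickson m a hm h => exact Exc.dickson m a hm h
  | comp d e F G hF hG ihF ihG => exact Exc.comp d e F G ihF ihG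

/-- **Uniform boundedness for Hénon maps with exceptional `F`.**
For all `D, B ≥ 1` and `d ≥ 2` there is a constant `C` such that for every number field `K` of degree
at most `D` over `ℚ` and every generalized Hénon map `f(x, y) = (y, F(y) - δ x)` of degree `d` over
`K` whose polynomial `F` is a composition of affine polynomials, powers and Dickson polynomials
(with the conditions on the exponents for `N = D B`), there are at most `C` periodic points `P` of
`f` over the algebraic closure with `[K(P) : K] ≤ B`. -/
theorem result :
    ∀ D B d : ℕ, 1 ≤ D → 1 ≤ B → 2 ≤ d → ∃ C : ℕ,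
      ∀ (K : Type) [Field K] [NumberField K], Module.finrank ℚ K ≤ D →
        ∀ (F : Polynomial K) (δ : K), F.natDegree = d → δ ≠ 0 → Exceptional (D * B) d F →
          ∀ S : Finset (AlgebraicClosure K × AlgebraicClosure K),
            (∀ P ∈ S, (∃ n : ℕ, 1 ≤ n ∧ (henon F δ)^[n] P = P) ∧
              Module.finrank K (IntermediateField.adjoin K {P.1, P.2}) ≤ B) →
            S.card ≤ C := by
  classical
  intro D B d hD hB hd
  obtain ⟨N0, hN0⟩ := henon_period (D * B) d (by omega)
  refine ⟨d ^ N0.factorial, ?_⟩
  intro K _ _ hK F δ hF hδ hexc S hS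
  let φ : K →+* AlgebraicClosure K := algebraMap K (AlgebraicClosure K)
  have hhen : henon F δ = hen (F.map φ) (φ δ) := by
    funext P
    unfold henon hen
    rw [Polynomial.eval_map, Polynomial.aeval_def]
  have hdeg : (F.map φ).natDegree = d := by rw [Polynomial.natDegree_map, hF]
  -- every point of `S` is fixed by the same iterate
  have hfix : ∀ P ∈ S, (hen (F.map φ) (φ δ))^[N0.factorial] P = P := by
    intro P hP
    obtain ⟨⟨n, hn, hper⟩, hfin⟩ := hS P hP
    rw [hhen] at hper
    let L := IntermediateField.adjoin K ({P.1, P.2} : Set (AlgebraicClosure K))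
    have hfd : FiniteDimensional K L := by
      apply IntermediateField.finiteDimensional_adjoin
      intro x _
      exact Algebra.IsIntegral.isIntegral x
    haveI : FiniteDimensional ℚ L := FiniteDimensional.trans ℚ K L
    haveI : NumberField L := ⟨⟩
    have hL : Module.finrank ℚ L ≤ D * B := by
      rw [← Module.finrank_mul_finrank ℚ K L]
      exact Nat.mul_le_mul hK hfin
    -- the orbit in `L`
    let P1 : L := ⟨P.1, IntermediateField.subset_adjoin K _ (by simp)⟩
    let P2 : L := ⟨P.2, IntermediateField.subset_adjoin K _ (by simp)⟩
    let FL : Polynomial L := F.map (algebraMap K L)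
    let δL : L := algebraMap K L δ
    let Z : ℕ → L × L := fun t => (hen FL δL)^[t] (P1, P2)
    have hZ : ∀ t, (((Z t).1 : AlgebraicClosure K), ((Z t).2 : AlgebraicClosure K)) = (hen (F.map φ) (φ δ))^[t] P := by
      intro t
      induction t with
      | zero => rfl
      | succ t ih =>
        have e1 : Z (t + 1) = hen FL δL (Z t) := Function.iterate_succ_apply' _ _ _
        rw [Function.iterate_succ_apply', ← ih, e1]
        unfold hen
        simp only
        ext
        · rfl
        · simp only [FL, δL]
          rw [Polynomial.eval_map, Polynomial.eval_map]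
          push_cast
          rw [← IntermediateField.algebraMap_apply L, ← IntermediateField.algebraMap_apply L,
            ← IntermediateField.algebraMap_apply L, Polynomial.hom_eval₂]
          rfl
    have hZrec : ∀ t, (Z (t + 2)).1 = FL.eval (Z (t + 1)).1 - δL * (Z t).1 := by
      intro t
      show ((hen FL δL)^[t + 2] (P1, P2)).1 = _
      rw [Function.iterate_succ_apply', Function.iterate_succ_apply']
      show FL.eval (Z t).2 - δL * (Z t).1 = _
      have : (Z (t + 1)).1 = (Z t).2 := by
        show ((hen FL δL)^[t + 1] (P1, P2)).1 = _
        rw [Function.iterate_succ_apply']; rfl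
      rw [this]
    have hZn : Z n = Z 0 := by
      have h1 := hZ n
      rw [hper] at h1
      apply Prod.ext
      · apply Subtype.ext
        exact congrArg Prod.fst h1
      · apply Subtype.ext
        exact congrArg Prod.snd h1
    have hZper : ∀ t, Z (t + n) = Z t := by
      intro t
      show (hen FL δL)^[t + n] (P1, P2) = (hen FL δL)^[t] (P1, P2)
      rw [Function.iterate_add_apply]
      congr 1
    obtain ⟨m, hm0, hmN, hmall⟩ := hN0 L hL FL δL
      (by
        intro h
        apply hδ
        exact (map_eq_zero (algebraMap K L)).1 h)
      (hexc.exc.map _) (fun t => (Z t).1) n hn (fun t => by simp only [hZper]) hZrec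
    have hm1 : (hen (F.map φ) (φ δ))^[m] P = P := by
      rw [← hZ m]
      have h1 := hmall 0
      have h2 := hmall 1
      simp only [zero_add] at h1
      have e1 : ∀ t, (Z (t + 1)).1 = (Z t).2 := by
        intro t
        show ((hen FL δL)^[t + 1] (P1, P2)).1 = _
        rw [Function.iterate_succ_apply']; rfl
      rw [add_comm 1 m, e1, show (1 : ℕ) = 0 + 1 by rfl, e1] at h2
      apply Prod.ext
      · exact congrArg (fun z : L => (z : AlgebraicClosure K)) h1
      · exact congrArg (fun z : L => (z : AlgebraicClosure K)) h2
    obtain ⟨s, hs⟩ := Nat.dvd_factorial hm0 hmN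
    rw [hs, Function.iterate_mul]
    exact Function.iterate_fixed hm1 s
  have := card_periodic_le (F.map φ) (φ δ) S N0.factorial (Nat.factorial_pos _) (by omega) hfix
  rwa [hdeg] at this

end Pool.Agent.Results.MP_0e6b5f_nt.HenonExceptional
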