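import Pool.Agent.H182R2.HenonMono

set_option autoImplicit false

open Finset Polynomial Pool.Agent.H182R2

namespace Pool.Agent.Results.MP_0e6b5f_nt.OddDegreeReal

/-- The generalized Hénon map `f(x, y) = (y, F(y) - δ x)` on the plane over the algebraic closure
of `K`. -/
noncomputable def henon {K : Type} [Field K] (F : K[X]) (δ : K)
    (P : AlgebraicClosure K × AlgebraicClosure K) : AlgebraicClosure K × AlgebraicClosure K :=
  (P.2, aeval P.2 F - algebraMap K (AlgebraicClosure K) δ * P.1)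

/-- The set of all periodic points `P` of the Hénon map with `[K(P) : K]` odd. -/
def oddPer {K : Type} [Field K] (F : K[X]) (δ : K) :
    Set (AlgebraicClosure K × AlgebraicClosure K) :=
  {P | (∃ n : ℕ, 1 ≤ n ∧ (henon F δ)^[n] P = P) ∧
    Odd (Module.finrank K (IntermediateField.adjoin K {P.1, P.2}))}

/-- A real Hénon map `(x, y) ↦ (y, φ(y) - δ x)` is `Tame` if `φ` is strictly monotone and `δ < 0`,
or `φ(t) ≠ (1 + δ) t` for all real `t`, or `|φ(s) - φ(t)| > (1 + |δ|) |s - t|` for all `s ≠ t`. -/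
def Tame (φ : ℝ → ℝ) (δ : ℝ) : Prop :=
  ((StrictMono φ ∨ StrictAnti φ) ∧ δ < 0) ∨ (∀ t, φ t ≠ (1 + δ) * t) ∨
    (∀ s t, s ≠ t → (1 + |δ|) * |s - t| < |φ s - φ t|)

/-- The polynomial `a_0 + a_1 y + ... + a_d y^d` with integer coefficients, over `ℚ`. -/
noncomputable def poly {d : ℕ} (a : Fin (d + 1) → ℤ) : ℚ[X] :=
  ∑ i : Fin (d + 1), C ((a i : ℤ) : ℚ) * X ^ (i : ℕ)

section solutions

variable {L : Type*} [Field L]

/-- Solutions of `F(y) = e x`, `F(x) = e y`. -/
lemma encard_sol_le (F : L[X]) (hF : 2 ≤ F.natDegree) (e : L) :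
    {P : L × L | F.eval P.2 = e * P.1 ∧ F.eval P.1 = e * P.2}.encard ≤
      ((F.natDegree ^ 2 : ℕ) : ℕ∞) := by
  classical
  have hF0 : F ≠ 0 := by
    rintro rfl
    simp at hF
  by_cases he : e = 0
  · subst he
    have hsub : {P : L × L | F.eval P.2 = 0 * P.1 ∧ F.eval P.1 = 0 * P.2} ⊆
        ((F.roots.toFinset ×ˢ F.roots.toFinset : Finset (L × L)) : Set (L × L)) := by
      rintro ⟨x, y⟩ ⟨h1, h2⟩
      simp only [zero_mul] at h1 h2
      simp [hF0, h1, h2]
    refine (Set.encard_le_encard hsub).trans ?_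
    rw [Set.encard_coe_eq_coe_finsetCard, Finset.card_product]
    have hc : F.roots.toFinset.card ≤ F.natDegree :=
      (Multiset.toFinset_card_le _).trans (card_roots' F)
    exact_mod_cast (by nlinarith : F.roots.toFinset.card * F.roots.toFinset.card ≤
      F.natDegree ^ 2)
  · set G : L[X] := F.comp (C e⁻¹ * F) - C e * X with hG
    have hdeg1 : (C e⁻¹ * F).natDegree = F.natDegree := by
      rw [natDegree_C_mul (inv_ne_zero he)]
    have hdegc : (F.comp (C e⁻¹ * F)).natDegree = F.natDegree * F.natDegree := by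
      rw [natDegree_comp, hdeg1]
    have hGdeg : G.natDegree = F.natDegree * F.natDegree := by
      rw [hG, natDegree_sub_eq_left_of_natDegree_lt, hdegc]
      rw [hdegc]
      refine lt_of_le_of_lt (natDegree_C_mul_le e X) ?_
      rw [natDegree_X]
      nlinarith
    have hG0 : G ≠ 0 := by
      intro h
      rw [h, natDegree_zero] at hGdeg
      nlinarith
    have hinj : Set.InjOn (fun P : L × L => P.2)
        {P : L × L | F.eval P.2 = e * P.1 ∧ F.eval P.1 = e * P.2} := by
      rintro ⟨x, y⟩ ⟨h1, _⟩ ⟨x', y'⟩ ⟨h1', _⟩ h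
      simp only at h h1 h1'
      subst h
      have : e * x = e * x' := by rw [← h1, ← h1']
      have := mul_left_cancel₀ he this
      rw [this]
    rw [← hinj.encard_image]
    have hsub : (fun P : L × L => P.2) ''
        {P : L × L | F.eval P.2 = e * P.1 ∧ F.eval P.1 = e * P.2} ⊆
        (G.roots.toFinset : Set L) := by
      rintro _ ⟨⟨x, y⟩, ⟨h1, h2⟩, rfl⟩
      simp only at h1 h2 ⊢
      have hx : e⁻¹ * F.eval y = x := by
        rw [h1, ← mul_assoc, inv_mul_cancel₀ he, one_mul]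
      have hroot : G.eval y = 0 := by
        rw [hG, eval_sub, eval_comp, eval_mul, eval_C, hx, h2, eval_mul, eval_C, eval_X, sub_self]
      simp only [Finset.mem_coe, Multiset.mem_toFinset]
      exact (mem_roots hG0).2 hroot
    refine (Set.encard_le_encard hsub).trans ?_
    rw [Set.encard_coe_eq_coe_finsetCard]
    have hc : G.roots.toFinset.card ≤ G.natDegree :=
      (Multiset.toFinset_card_le _).trans (card_roots' G)
    rw [hGdeg] at hc
    exact_mod_cast (by nlinarith : G.roots.toFinset.card ≤ F.natDegree ^ 2)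

end solutions

section orbit

variable {K : Type} [Field K] [CharZero K]

/-- The real sequence attached to a periodic point of odd degree. -/
lemma exists_real_orbit (σ : K →+* ℝ) (F : K[X]) (δ : K)
    (P : AlgebraicClosure K × AlgebraicClosure K) (hP : P ∈ oddPer F δ) :
    ∃ (x : ℕ → ℝ) (m : ℕ) (u : ℕ → AlgebraicClosure K)
      (τ : IntermediateField.adjoin K {P.1, P.2} →+* ℝ)
      (v : ℕ → IntermediateField.adjoin K {P.1, P.2}), 1 ≤ m ∧
      (∀ n, x (n + m) = x n) ∧
      (∀ n, x (n + 2) = (F.map σ).eval (x (n + 1)) - σ δ * x n) ∧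
      (∀ n, (henon F δ)^[n] P = (u n, u (n + 1))) ∧
      (∀ n, (v n : AlgebraicClosure K) = u n) ∧ (∀ n, τ (v n) = x n) := by
  obtain ⟨⟨m, hm, hper⟩, hodd⟩ := hP
  set E := IntermediateField.adjoin K {P.1, P.2} with hE
  obtain ⟨τ, hτ⟩ := exists_real_embedding (L := E) σ hodd
  have h1 : P.1 ∈ E := IntermediateField.subset_adjoin K _ (by simp)
  have h2 : P.2 ∈ E := IntermediateField.subset_adjoin K _ (by simp)
  -- the orbit inside `E`
  let g : E × E → E × E := fun Q => (Q.2, aeval Q.2 F - algebraMap K E δ * Q.1)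
  let Q0 : E × E := (⟨P.1, h1⟩, ⟨P.2, h2⟩)
  let ι : E × E → AlgebraicClosure K × AlgebraicClosure K := fun Q => (Q.1, Q.2)
  have hι : Function.Injective ι := by
    rintro ⟨a, b⟩ ⟨a', b'⟩ h
    simp only [ι, Prod.mk.injEq] at h
    exact Prod.ext (Subtype.ext h.1) (Subtype.ext h.2)
  have hcoe : ∀ a : E, ((aeval a F : E) : AlgebraicClosure K) = aeval (a : AlgebraicClosure K) F := by
    intro a
    exact (aeval_algebraMap_apply (AlgebraicClosure K) a F).symm
  have hsemi : ∀ Q, ι (g Q) = henon F δ (ι Q) := by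
    intro Q
    simp only [ι, g, henon]
    refine Prod.ext rfl ?_
    simp only [hcoe, AddSubgroupClass.coe_sub, MulMemClass.coe_mul]
    rfl
  have hiter : ∀ n, ι (g^[n] Q0) = (henon F δ)^[n] P := by
    intro n
    induction n with
    | zero => rfl
    | succ n ih => rw [Function.iterate_succ_apply', Function.iterate_succ_apply', hsemi, ih]
  let v : ℕ → E := fun n => (g^[n] Q0).1
  have hv1 : ∀ n, g^[n] Q0 = (v n, v (n + 1)) := by
    intro n
    refine Prod.ext rfl ?_
    show (g^[n] Q0).2 = (g^[n + 1] Q0).1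
    rw [Function.iterate_succ_apply']
  have hvrec : ∀ n, v (n + 2) = aeval (v (n + 1)) F - algebraMap K E δ * v n := by
    intro n
    have : g^[n + 1] Q0 = (v (n + 1), v (n + 2)) := hv1 (n + 1)
    rw [Function.iterate_succ_apply', hv1 n] at this
    exact (Prod.mk.inj this).2.symm
  have hgper : g^[m] Q0 = Q0 := by
    apply hι
    rw [hiter, hper]
  have hvper : ∀ n, v (n + m) = v n := by
    intro n
    show (g^[n + m] Q0).1 = (g^[n] Q0).1
    rw [Function.iterate_add_apply, hgper]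
  refine ⟨fun n => τ (v n), m, fun n => (v n : AlgebraicClosure K), τ, v, hm, ?_, ?_, ?_, ?_, ?_⟩
  · intro n
    simp only [hvper n]
  · intro n
    simp only
    rw [hvrec n, map_sub, map_mul, hτ]
    congr 1
    have hcomp : τ.comp (algebraMap K E) = σ := RingHom.ext hτ
    rw [aeval_def, eval_map, ← hcomp]
    exact hom_eval₂ F (algebraMap K E) τ (v (n + 1))
  · intro n
    rw [← hiter n, hv1 n]
  · intro n; rfl
  · intro n; rfl

end orbit

/-- Main finiteness statement. -/
theorem oddPer_le {K : Type} [Field K] [CharZero K] (σ : K →+* ℝ) (F : K[X]) (δ : K)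
    (hd : 2 ≤ F.natDegree) (hT : Tame (fun t => (F.map σ).eval t) (σ δ)) :
    (∀ P ∈ oddPer F δ, henon F δ (henon F δ P) = P) ∧
      (oddPer F δ).encard ≤ ((F.natDegree ^ 2 : ℕ) : ℕ∞) := by
  set φ : K →+* AlgebraicClosure K := algebraMap K (AlgebraicClosure K) with hφ
  have hdeg : (F.map φ).natDegree = F.natDegree := natDegree_map φ
  have key : ∀ (x : ℕ → ℝ) (m : ℕ), 1 ≤ m → (∀ n, x (n + m) = x n) →
      (∀ n, x (n + 2) = (F.map σ).eval (x (n + 1)) - σ δ * x n) → ∀ n, x (n + 2) = x n := by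
    intro x m hm hper hrec
    rcases hT with ⟨hmono, hδ⟩ | hno | hexp
    · rcases hmono with h | h
      · exact mono_period _ h (σ δ) hδ x m hm hper hrec
      · exact anti_period _ h (σ δ) hδ x m hm hper hrec
    · exact absurd (no_period _ (by fun_prop) (σ δ) hno x m hm hper hrec) id
    · have h1 : ∀ n, x n = x (n + 1) := by
        refine expanding_period _ (σ δ) hexp x (fun n => x (n + 1)) m hm hper ?_ hrec ?_
        · intro n
          show x (n + m + 1) = x (n + 1)
          rw [show n + m + 1 = (n + 1) + m by ring, hper]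
        · intro n
          exact hrec (n + 1)
      intro n
      rw [h1 n, h1 (n + 1)]
  have hstep : ∀ P ∈ oddPer F δ, henon F δ (henon F δ P) = P ∧
      (F.map φ).eval P.2 = (1 + φ δ) * P.1 ∧ (F.map φ).eval P.1 = (1 + φ δ) * P.2 := by
    intro P hP
    obtain ⟨x, m, u, τ, v, hm, hper, hrec, hu, hv, hτ⟩ := exists_real_orbit σ F δ P hP
    have hx2 : ∀ n, x (n + 2) = x n := key x m hm hper hrec
    have hu2 : ∀ n, u (n + 2) = u n := by
      intro n
      rw [← hv, ← hv]
      have : τ (v (n + 2)) = τ (v n) := by rw [hτ, hτ, hx2]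
      rw [τ.injective this]
    have h0 := hu 0
    have h1 := hu 1
    have h2 := hu 2
    rw [Function.iterate_zero, id] at h0
    have e1 : henon F δ (u 0, u 1) = (u 1, u 2) := by
      have h0' : (u 0, u 1) = P := h0.symm
      rw [h0']
      simpa using h1
    have e2 : henon F δ (u 1, u 2) = (u 2, u 3) := by
      have : (henon F δ)^[2] P = henon F δ ((henon F δ)^[1] P) :=
        Function.iterate_succ_apply' _ _ _
      rw [h1, h2] at this
      exact this.symm
    have r1 : aeval (u 1) F - φ δ * u 0 = u 2 := (Prod.mk.inj e1).2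
    have r2 : aeval (u 2) F - φ δ * u 1 = u 3 := (Prod.mk.inj e2).2
    have a1 : u 2 = u 0 := hu2 0
    have a2 : u 3 = u 1 := hu2 1
    have h0' : P = (u 0, u 1) := h0
    refine ⟨?_, ?_⟩
    · rw [h0', e1, e2, a1, a2]
    · rw [a1] at r1 r2
      rw [a2] at r2
      rw [h0', eval_map, eval_map, ← aeval_def, ← aeval_def]
      constructor
      · linear_combination r1
      · linear_combination r2
  refine ⟨fun P hP => (hstep P hP).1, ?_⟩
  have hsub : oddPer F δ ⊆ {P : AlgebraicClosure K × AlgebraicClosure K |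
      (F.map φ).eval P.2 = (1 + φ δ) * P.1 ∧ (F.map φ).eval P.1 = (1 + φ δ) * P.2} :=
    fun P hP => (hstep P hP).2
  refine (Set.encard_le_encard hsub).trans ?_
  have := encard_sol_le (F.map φ) (by rw [hdeg]; exact hd) (1 + φ δ)
  rwa [hdeg] at this

section count

lemma map_poly_eval {d : ℕ} (a : Fin (d + 1) → ℤ) (t : ℝ) :
    ((poly a).map (Rat.castHom ℝ)).eval t = ∑ i : Fin (d + 1), (a i : ℝ) * t ^ (i : ℕ) := by
  unfold poly
  rw [Polynomial.map_sum, eval_finsetSum]
  refine Finset.sum_congr rfl fun i _ => ?_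
  simp

lemma natDegree_poly {d : ℕ} (a : Fin (d + 1) → ℤ) (ha : a (Fin.last d) ≠ 0) :
    (poly a).natDegree = d := by
  have hcoeff : ∀ k : Fin (d + 1), (poly a).coeff k = a k := by
    intro k
    unfold poly
    rw [finsetSum_coeff]
    simp only [coeff_C_mul, coeff_X_pow]
    rw [Finset.sum_eq_single k]
    · simp
    · intro b _ hb
      have : (k : ℕ) ≠ b := fun h => hb (Fin.ext h.symm)
      simp [this]
    · simp
  apply natDegree_eq_of_le_of_coeff_ne_zero
  · unfold poly
    apply natDegree_sum_le_of_forall_le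
    intro i _
    refine (natDegree_C_mul_X_pow_le _ _).trans ?_
    exact Nat.lt_succ_iff.1 i.2
  · have := hcoeff (Fin.last d)
    rw [Fin.val_last] at this
    rw [this]
    exact_mod_cast ha

lemma abs_pow_le_one_add {t : ℝ} {k e : ℕ} (hk : k ≤ e) (he : Even e) :
    |t| ^ k ≤ 1 + t ^ e := by
  have hte : t ^ e = |t| ^ e := (he.pow_abs t).symm
  rw [hte]
  rcases le_total |t| 1 with h | h
  · have h1 : |t| ^ k ≤ 1 := pow_le_one₀ (abs_nonneg t) h
    have h2 : 0 ≤ |t| ^ e := pow_nonneg (abs_nonneg t) _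
    linarith
  · have h1 : |t| ^ k ≤ |t| ^ e := pow_le_pow_right₀ h hk
    linarith

/-- Even degree: a box of integer coefficients in which `F(t) - (1 + δ) t > 0`. -/
lemma tame_even {d : ℕ} (hd : 2 ≤ d) (he : Even d) (a : Fin (d + 1) → ℤ) (δ : ℤ) (H h : ℝ)
    (hh : 0 ≤ h) (hH : 2 * ((d + 2) * h + 1) < H)
    (ha0 : H / 2 ≤ a 0) (had : H / 2 ≤ a (Fin.last d))
    (ha : ∀ i, i ≠ 0 → i ≠ Fin.last d → |(a i : ℝ)| ≤ h) (hδ : |(δ : ℝ)| ≤ h) :
    Tame (fun t => ((poly a).map (Rat.castHom ℝ)).eval t) ((δ : ℤ) : ℝ) := by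
  refine Or.inr (Or.inl fun t => ne_of_gt ?_)
  show (1 + ((δ : ℤ) : ℝ)) * t < ((poly a).map (Rat.castHom ℝ)).eval t
  rw [map_poly_eval]
  set M : ℝ := 1 + t ^ d with hM
  have hM1 : 1 ≤ M := by
    have : 0 ≤ t ^ d := he.pow_nonneg t
    linarith
  have hlast0 : (Fin.last d : Fin (d + 1)) ≠ 0 := by
    intro h0
    have := congrArg Fin.val h0
    simp at this
    omega
  have hterm : ∀ i : Fin (d + 1), -h * M + (if i = 0 then H / 2 else 0) +
      (if i = Fin.last d then H / 2 * t ^ d else 0) ≤ (a i : ℝ) * t ^ (i : ℕ) := by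
    intro i
    by_cases h0 : i = 0
    · subst h0
      rw [if_pos rfl, if_neg hlast0.symm]
      simp only [Fin.val_zero, pow_zero, mul_one, add_zero]
      nlinarith
    · by_cases h1 : i = Fin.last d
      · subst h1
        rw [if_neg h0, if_pos rfl, Fin.val_last]
        have : 0 ≤ t ^ d := he.pow_nonneg t
        nlinarith
      · rw [if_neg h0, if_neg h1]
        have hb := ha i h0 h1
        have hp : |t| ^ (i : ℕ) ≤ M := abs_pow_le_one_add (Nat.lt_succ_iff.1 i.2) he
        have h2 : |(a i : ℝ) * t ^ (i : ℕ)| ≤ h * M := by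
          rw [abs_mul, abs_pow]
          exact mul_le_mul hb hp (pow_nonneg (abs_nonneg t) _) hh
        have := neg_abs_le ((a i : ℝ) * t ^ (i : ℕ))
        linarith
  have hsum := Finset.sum_le_sum (s := Finset.univ) fun i _ => hterm i
  rw [Finset.sum_add_distrib, Finset.sum_add_distrib, Finset.sum_const, Finset.sum_ite_eq',
    Finset.sum_ite_eq'] at hsum
  simp only [Finset.card_univ, Fintype.card_fin, Finset.mem_univ, if_true, nsmul_eq_mul,
    Nat.cast_add, Nat.cast_one] at hsum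
  have ht : (1 + (δ : ℝ)) * t ≤ (1 + h) * M := by
    have h1 : (1 + (δ : ℝ)) * t ≤ |(1 + (δ : ℝ))| * |t| := by
      rw [← abs_mul]; exact le_abs_self _
    have h2 : |(1 + (δ : ℝ))| ≤ 1 + h := by
      refine (abs_add_le _ _).trans ?_
      rw [abs_one]
      linarith
    have h3 : |t| ≤ M := by
      have := abs_pow_le_one_add (t := t) (k := 1) (e := d) (by omega) he
      rwa [pow_one] at this
    exact h1.trans (mul_le_mul h2 h3 (abs_nonneg t) (by linarith))
  have e : H / 2 + H / 2 * t ^ d = H / 2 * M := by rw [hM]; ring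
  have : (1 + h) * M < -((d : ℝ) + 1) * h * M + H / 2 * M := by
    have : (1 + h) + ((d : ℝ) + 1) * h < H / 2 := by linarith
    nlinarith
  linarith

/-- Odd degree: a box of integer coefficients in which `F' > 0` and `δ < 0`. -/
lemma tame_odd {d : ℕ} (hd : 2 ≤ d) (he : Odd d) (a : Fin (d + 1) → ℤ) (δ : ℤ) (H h : ℝ)
    (hh : 0 ≤ h) (hH : 2 * (d * (d + 1) * h) < H)
    (ha1 : H / 2 ≤ a 1) (had : H / 2 ≤ a (Fin.last d))
    (ha : ∀ i, i ≠ 1 → i ≠ Fin.last d → |(a i : ℝ)| ≤ h) (hδ : δ < 0) :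
    Tame (fun t => ((poly a).map (Rat.castHom ℝ)).eval t) ((δ : ℤ) : ℝ) := by
  refine Or.inl ⟨Or.inl ?_, by exact_mod_cast hδ⟩
  have hd1 : Even (d - 1) := by
    obtain ⟨k, hk⟩ := he
    exact ⟨k, by omega⟩
  have hH0 : 0 ≤ H := by
    have : 0 ≤ 2 * ((d : ℝ) * (d + 1) * h) := by positivity
    linarith
  apply strictMono_of_deriv_pos
  intro t
  have hfun : (fun t => ((poly a).map (Rat.castHom ℝ)).eval t) =
      fun t => ∑ i : Fin (d + 1), (a i : ℝ) * t ^ (i : ℕ) := by
    funext t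
    exact map_poly_eval a t
  rw [hfun]
  have hderiv : deriv (fun t : ℝ => ∑ i : Fin (d + 1), (a i : ℝ) * t ^ (i : ℕ)) t =
      ∑ i : Fin (d + 1), (a i : ℝ) * (((i : ℕ) : ℝ) * t ^ ((i : ℕ) - 1)) := by
    apply HasDerivAt.deriv
    apply HasDerivAt.fun_sum
    intro i _
    exact (hasDerivAt_pow (i : ℕ) t).const_mul _
  rw [hderiv]
  set M : ℝ := 1 + t ^ (d - 1) with hM
  have htd : 0 ≤ t ^ (d - 1) := hd1.pow_nonneg t
  have hM1 : 1 ≤ M := by linarith
  have h1val : ((1 : Fin (d + 1)) : ℕ) = 1 := by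
    rw [Fin.val_one']
    exact Nat.mod_eq_of_lt (by omega)
  have hlast1 : (Fin.last d : Fin (d + 1)) ≠ 1 := by
    intro h0
    have := congrArg Fin.val h0
    rw [h1val, Fin.val_last] at this
    omega
  have hterm : ∀ i : Fin (d + 1), -(d * h) * M + (if i = 1 then H / 2 else 0) +
      (if i = Fin.last d then H / 2 * t ^ (d - 1) else 0) ≤
      (a i : ℝ) * (((i : ℕ) : ℝ) * t ^ ((i : ℕ) - 1)) := by
    intro i
    have hdh : 0 ≤ (d : ℝ) * h := by positivity
    by_cases h0 : i = 1
    · subst h0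
      rw [if_pos rfl, if_neg hlast1.symm, h1val]
      simp only [Nat.cast_one, Nat.sub_self, pow_zero, mul_one, add_zero]
      nlinarith
    · by_cases h1 : i = Fin.last d
      · subst h1
        rw [if_neg h0, if_pos rfl, Fin.val_last]
        have hd' : (1 : ℝ) ≤ d := by exact_mod_cast (by omega : 1 ≤ d)
        have h5 : H / 2 * t ^ (d - 1) ≤ (a (Fin.last d) : ℝ) * ((d : ℝ) * t ^ (d - 1)) := by
          have h6 : t ^ (d - 1) ≤ (d : ℝ) * t ^ (d - 1) := by nlinarith
          have h7 : 0 ≤ (a (Fin.last d) : ℝ) := by linarith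
          calc H / 2 * t ^ (d - 1) ≤ (a (Fin.last d) : ℝ) * t ^ (d - 1) :=
                mul_le_mul_of_nonneg_right had htd
            _ ≤ _ := mul_le_mul_of_nonneg_left h6 h7
        nlinarith
      · rw [if_neg h0, if_neg h1]
        have hb := ha i h0 h1
        have hid : (i : ℕ) ≤ d := Nat.lt_succ_iff.1 i.2
        have hp : |t| ^ ((i : ℕ) - 1) ≤ M := abs_pow_le_one_add (by omega) hd1
        have h2 : |(a i : ℝ) * (((i : ℕ) : ℝ) * t ^ ((i : ℕ) - 1))| ≤ h * (d * M) := by
          rw [abs_mul, abs_mul, abs_pow, Nat.abs_cast]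
          refine mul_le_mul hb ?_ (by positivity) hh
          refine mul_le_mul (by exact_mod_cast hid) hp (by positivity) (by positivity)
        have := neg_abs_le ((a i : ℝ) * (((i : ℕ) : ℝ) * t ^ ((i : ℕ) - 1)))
        nlinarith
  have hsum := Finset.sum_le_sum (s := Finset.univ) fun i _ => hterm i
  rw [Finset.sum_add_distrib, Finset.sum_add_distrib, Finset.sum_const, Finset.sum_ite_eq',
    Finset.sum_ite_eq'] at hsum
  simp only [Finset.card_univ, Fintype.card_fin, Finset.mem_univ, if_true, nsmul_eq_mul,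
    Nat.cast_add, Nat.cast_one] at hsum
  have e : H / 2 + H / 2 * t ^ (d - 1) = H / 2 * M := by rw [hM]; ring
  have : 0 < -((d : ℝ) + 1) * (d * h) * M + H / 2 * M := by
    have : ((d : ℝ) + 1) * (d * h) < H / 2 := by linarith
    nlinarith
  linarith

/-- Lower bound for the number of tame Hénon maps in a box. -/
lemma count_tame {d : ℕ} (hd : 2 ≤ d) (H : ℕ) (hH : 16 * d ^ 2 ≤ H) (S : Set ((Fin (d + 1) → ℤ) × ℤ))
    (hS : S.Finite)
    (hmem : ∀ (a : Fin (d + 1) → ℤ) (δ : ℤ), (∀ i, |a i| ≤ H) → |δ| ≤ H → a (Fin.last d) ≠ 0 →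
      δ ≠ 0 → Tame (fun t => ((poly a).map (Rat.castHom ℝ)).eval t) ((δ : ℤ) : ℝ) →
      (a, δ) ∈ S) :
    (1 / (32 * (d : ℝ) ^ 2)) ^ (d + 2) * (H : ℝ) ^ (d + 2) ≤ (S.ncard : ℝ) := by
  classical
  set h : ℕ := H / (16 * d ^ 2) with hh
  have hd0 : 0 < 16 * d ^ 2 := by positivity
  have h1 : 1 ≤ h := (Nat.one_le_div_iff hd0).2 hH
  have hle : h * (16 * d ^ 2) ≤ H := Nat.div_mul_le_self _ _
  have hlt : H < (h + 1) * (16 * d ^ 2) :=
    Nat.lt_mul_of_div_lt (Nat.lt_succ_self _) hd0
  have hlower : (H : ℝ) / (32 * (d : ℝ) ^ 2) ≤ h := by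
    rw [div_le_iff₀ (by positivity)]
    have e1 : (H : ℝ) < (h + 1) * (16 * d ^ 2) := by exact_mod_cast hlt
    have e2 : (1 : ℝ) ≤ h := by exact_mod_cast h1
    have e3 : (0 : ℝ) < (d : ℝ) ^ 2 := by positivity
    nlinarith
  have hhH : (h : ℝ) * (16 * d ^ 2) ≤ H := by exact_mod_cast hle
  have hdR : (2 : ℝ) ≤ d := by exact_mod_cast hd
  have hhR : (1 : ℝ) ≤ h := by exact_mod_cast h1
  have hhalf : (H : ℝ) / 2 ≤ (H : ℝ) - h := by
    have e4 : (4 : ℝ) ≤ (d : ℝ) ^ 2 := by nlinarith
    have e5 : (h : ℝ) * 64 ≤ h * (16 * d ^ 2) :=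
      mul_le_mul_of_nonneg_left (by linarith) (by linarith)
    linarith
  let j0 : Fin (d + 1) := if Even d then 0 else 1
  let lo : Fin (d + 1) → ℤ := fun i => if i = j0 ∨ i = Fin.last d then (H : ℤ) - h + 1 else 1
  let hi : Fin (d + 1) → ℤ := fun i => if i = j0 ∨ i = Fin.last d then (H : ℤ) else h
  let lδ : ℤ := if Even d then 1 else -(h : ℤ)
  let uδ : ℤ := if Even d then (h : ℤ) else -1
  let box : Finset ((Fin (d + 1) → ℤ) × ℤ) :=
    (Fintype.piFinset fun i => Finset.Icc (lo i) (hi i)) ×ˢ Finset.Icc lδ uδ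
  have hcard : box.card = h ^ (d + 2) := by
    have c1 : ∀ i, (Finset.Icc (lo i) (hi i)).card = h := by
      intro i
      rw [Int.card_Icc]
      simp only [lo, hi]
      split_ifs <;> omega
    have c2 : (Finset.Icc lδ uδ).card = h := by
      rw [Int.card_Icc]
      simp only [lδ, uδ]
      split_ifs <;> omega
    rw [Finset.card_product, Fintype.card_piFinset, c2]
    simp only [c1, Finset.prod_const, Finset.card_univ, Fintype.card_fin]
    rw [← pow_succ]
  have hhHn : h ≤ H := by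
    have : 1 ≤ 16 * d ^ 2 := hd0
    nlinarith
  have hsub : (box : Set ((Fin (d + 1) → ℤ) × ℤ)) ⊆ S := by
    rintro ⟨a, δ⟩ hq
    simp only [box, Finset.coe_product, Set.mem_prod, Finset.mem_coe, Fintype.mem_piFinset,
      Finset.mem_Icc] at hq
    obtain ⟨ha, hδ⟩ := hq
    have habig : ∀ i, (i = j0 ∨ i = Fin.last d) → (H : ℤ) - h + 1 ≤ a i ∧ a i ≤ H := by
      intro i hi'
      have := ha i
      simpa only [lo, hi, if_pos hi'] using this
    have hasmall : ∀ i, i ≠ j0 → i ≠ Fin.last d → 1 ≤ a i ∧ a i ≤ h := by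
      intro i hi1 hi2
      have := ha i
      have hn : ¬ (i = j0 ∨ i = Fin.last d) := by tauto
      simpa only [lo, hi, if_neg hn] using this
    have hbigR : ∀ i, (i = j0 ∨ i = Fin.last d) → (H : ℝ) / 2 ≤ a i := by
      intro i hi'
      have := (habig i hi').1
      have h2 : ((H : ℝ) - h + 1) ≤ a i := by exact_mod_cast this
      linarith
    have hsmallR : ∀ i, i ≠ j0 → i ≠ Fin.last d → |(a i : ℝ)| ≤ h := by
      intro i hi1 hi2
      obtain ⟨x1, x2⟩ := hasmall i hi1 hi2
      have y1 : (1 : ℝ) ≤ a i := by exact_mod_cast x1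
      have y2 : (a i : ℝ) ≤ h := by exact_mod_cast x2
      rw [abs_of_nonneg (by linarith)]
      exact y2
    have hpos : ∀ i, 1 ≤ a i ∧ a i ≤ H := by
      intro i
      by_cases hi' : i = j0 ∨ i = Fin.last d
      · obtain ⟨x1, x2⟩ := habig i hi'
        refine ⟨?_, x2⟩
        have : (h : ℤ) ≤ H := by exact_mod_cast hhHn
        linarith
      · obtain ⟨x1, x2⟩ := hasmall i (by tauto) (by tauto)
        refine ⟨x1, ?_⟩
        have : (h : ℤ) ≤ H := by exact_mod_cast hhHn
        linarith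
    apply hmem
    · intro i
      obtain ⟨x1, x2⟩ := hpos i
      rw [abs_of_nonneg (by linarith)]
      exact x2
    · have : (h : ℤ) ≤ H := by exact_mod_cast hhHn
      rw [abs_le]
      simp only [lδ, uδ] at hδ
      split_ifs at hδ <;> constructor <;> omega
    · have := (hpos (Fin.last d)).1
      omega
    · simp only [lδ, uδ] at hδ
      split_ifs at hδ <;> omega
    · by_cases he : Even d
      · have hj : j0 = 0 := if_pos he
        have hδ' : 1 ≤ δ ∧ δ ≤ h := by simpa only [lδ, uδ, if_pos he] using hδ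
        apply tame_even hd he a δ H h (by positivity)
        · have e3 : ((d : ℝ) + 2) * h ≤ 2 * d * h := by nlinarith
          have e4 : 2 * (d : ℝ) * h * 8 ≤ h * (16 * d ^ 2) := by nlinarith
          have e5 : (64 : ℝ) ≤ H := by
            have : 16 * 2 ^ 2 ≤ 16 * d ^ 2 := by
              have := Nat.pow_le_pow_left hd 2
              omega
            exact_mod_cast (by omega : 64 ≤ H)
          linarith
        · exact hbigR 0 (Or.inl hj.symm)
        · exact hbigR _ (Or.inr rfl)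
        · intro i hi1 hi2
          exact hsmallR i (by rw [hj]; exact hi1) hi2
        · have y1 : (1 : ℝ) ≤ δ := by exact_mod_cast hδ'.1
          have y2 : (δ : ℝ) ≤ h := by exact_mod_cast hδ'.2
          rw [abs_of_nonneg (by linarith)]
          exact y2
      · have hj : j0 = 1 := if_neg he
        have hδ' : -(h : ℤ) ≤ δ ∧ δ ≤ -1 := by simpa only [lδ, uδ, if_neg he] using hδ
        apply tame_odd hd (Nat.not_even_iff_odd.1 he) a δ H h (by positivity)
        · have e3 : (d : ℝ) * (d + 1) * h ≤ 2 * d ^ 2 * h :=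
            mul_le_mul_of_nonneg_right (by nlinarith) (by linarith)
          have e5 : (64 : ℝ) ≤ H := by
            have : 16 * 2 ^ 2 ≤ 16 * d ^ 2 := by
              have := Nat.pow_le_pow_left hd 2
              omega
            exact_mod_cast (by omega : 64 ≤ H)
          nlinarith
        · exact hbigR 1 (Or.inl hj.symm)
        · exact hbigR _ (Or.inr rfl)
        · intro i hi1 hi2
          exact hsmallR i (by rw [hj]; exact hi1) hi2
        · omega
  have hn : box.card ≤ S.ncard := by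
    rw [← Set.ncard_coe_finset]
    exact Set.ncard_le_ncard hsub hS
  rw [hcard] at hn
  have : (1 / (32 * (d : ℝ) ^ 2)) ^ (d + 2) * (H : ℝ) ^ (d + 2) ≤ (h : ℝ) ^ (d + 2) := by
    rw [← mul_pow]
    apply pow_le_pow_left₀ (by positivity)
    rw [one_div, inv_mul_eq_div]
    exact hlower
  refine this.trans ?_
  exact_mod_cast hn

end count

/-- **Uniform bound for Hénon maps with a tame real place, and positive proportion.**
(1) If `K` is a number field with a real embedding `σ` such that the real Hénon map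
`(x, y) ↦ (y, σF(y) - σ(δ) x)` is `Tame`, then every periodic point `P` over the algebraic closure
with `[K(P) : K]` odd satisfies `f (f P) = P`, and there are at most `d ^ 2` such `P`.
(2) For every `d ≥ 2` a positive proportion of all Hénon maps of degree `d` with integer coefficients
(ordered by height) have this bound over `ℚ`. -/
theorem result :
    (∀ (K : Type) [Field K] [NumberField K] (σ : K →+* ℝ) (F : K[X]) (δ : K),
      2 ≤ F.natDegree → δ ≠ 0 → Tame (fun t => (F.map σ).eval t) (σ δ) →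
        (∀ P ∈ oddPer F δ, henon F δ (henon F δ P) = P) ∧
          (oddPer F δ).encard ≤ ((F.natDegree ^ 2 : ℕ) : ℕ∞)) ∧
    (∀ d : ℕ, 2 ≤ d → ∃ c : ℝ, 0 < c ∧ ∃ H₀ : ℕ, ∀ H : ℕ, H₀ ≤ H →
      c * (H : ℝ) ^ (d + 2) ≤
        (({q : (Fin (d + 1) → ℤ) × ℤ | (∀ i, |q.1 i| ≤ H) ∧ |q.2| ≤ H ∧ q.1 (Fin.last d) ≠ 0 ∧
          q.2 ≠ 0 ∧ (∀ P ∈ oddPer (poly q.1) (q.2 : ℚ),
            henon (poly q.1) (q.2 : ℚ) (henon (poly q.1) (q.2 : ℚ) P) = P) ∧
          (oddPer (poly q.1) (q.2 : ℚ)).encard ≤ ((d ^ 2 : ℕ) : ℕ∞)}.ncard : ℕ) : ℝ)) := by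
  refine ⟨fun K _ _ σ F δ hd _ hT => oddPer_le σ F δ hd hT, ?_⟩
  intro d hd
  refine ⟨(1 / (32 * (d : ℝ) ^ 2)) ^ (d + 2), by positivity, 16 * d ^ 2, fun H hH => ?_⟩
  apply count_tame hd H hH
  · apply Set.Finite.subset (s := ((Fintype.piFinset fun _ : Fin (d + 1) =>
      Finset.Icc (-(H : ℤ)) H) ×ˢ Finset.Icc (-(H : ℤ)) H : Finset ((Fin (d + 1) → ℤ) × ℤ)))
    · exact Finset.finite_toSet _
    · rintro ⟨a, δ⟩ ⟨h1, h2, _⟩
      simp only [Finset.coe_product, Set.mem_prod, Finset.mem_coe, Fintype.mem_piFinset,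
        Finset.mem_Icc]
      exact ⟨fun i => abs_le.1 (h1 i), abs_le.1 h2⟩
  · intro a δ ha hδ hlast hδ0 hT
    have hdeg := natDegree_poly a hlast
    have h := oddPer_le (Rat.castHom ℝ) (poly a) (δ : ℚ) (by rw [hdeg]; exact hd) (by
      simpa using hT)
    rw [hdeg] at h
    exact ⟨ha, hδ, hlast, hδ0, h.1, h.2⟩

end Pool.Agent.Results.MP_0e6b5f_nt.OddDegreeReal
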